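import Pool.Agent.W525.Ha.Main

/-!
# MP_4be043_ag: Hartshorne's conjecture on Chow groups of hypersurfaces, suspensions and covers

`C` are the Chow groups (with rational coefficients) of the smooth projective varieties over an
algebraically closed field `k` of characteristic zero, in the formal framework of the starting
files. `Hartshorne S d n i` says that `A^i(X) = ℚ h^i` for all smooth hypersurfaces `X` of degree
`d` and dimension `n`.

* The cone construction `A^i(X) → A^(i+1)(W)`, where `W : f + y_1^d + y_2^d = 0` is the double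
  suspension of `X : f = 0`, has a retraction which maps `h^(i+1)` to `h^i`. So the conjecture
  for `(n, i)` follows from the conjecture for `(n + 2, i + 1)`, and the whole conjecture follows
  from the conjecture in high dimensions.
* The conjecture for `(n, i)` is equivalent to the surjectivity, and to the injectivity, in the
  Lefschetz theorem for the Chow groups of smooth hyperplane sections of hypersurfaces.
-/

open CategoryTheory AlgebraicGeometry

universe u v

namespace Pool.Agent.Results.MP_4be043_ag.Suspension

open Pool.Agent.H914 Pool.Agent.H914.VarClass Pool.Agent.H914.VarClass.Obj Pool.Agent.W492.BB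
  Pool.Agent.W525.Ha

theorem result {k : Type u} [Field k] [IsAlgClosed k] [CharZero k] {𝒱 : VarClass k}
    {C : TheoryData.{u, v, 0} 𝒱 ℚ} [IsChow C] (hB : TransversalBaseChange C) (S : ProjSpaces C)
    (hS : IsStandard S) (hcone : HasCones S) (hcyc : HasCyclicCovers S) :
    -- one step: `(n + 2, i + 1)` implies `(n, i)`
    (∀ d n i : ℕ, 2 ≤ d → 1 ≤ n → Hartshorne S d (n + 2) (i + 1) → Hartshorne S d n i) ∧
    -- the conjecture in high dimensions implies the conjecture in all dimensions
    (∀ d N : ℕ, 2 ≤ d → (∀ n i : ℕ, N ≤ n → 2 * i < n → Hartshorne S d n i) →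
      ∀ n i : ℕ, 2 * i < n → Hartshorne S d n i) ∧
    -- the conjecture is equivalent to surjectivity, and to injectivity, in the Lefschetz theorem
    (∀ d n i : ℕ, 1 ≤ d → 1 ≤ n → i ≤ n →
      [Hartshorne S d n i, Surjectivity S d n i, Injectivity S d n i].TFAE) ∧
    -- the two maps between the Chow groups of `X` and of `W`
    (∀ {X W : 𝒱.Obj} {h : C.A X} {h' : C.A W} {E E' : 𝒱.Obj} {π : E ⟶ X} {s : X ⟶ E}
      {b : E ⟶ W} {π' : E' ⟶ X} {s' : X ⟶ E'} {b' : E' ⟶ W},
      IsConeSystem C X W h h' E E' π s b π' s' b' →
      (∀ (i : ℤ) (a : C.A X), C.Deg i a → C.Deg (i + 1) (C.down b (C.up π a))) ∧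
      (∀ (i : ℤ) (c : C.A W), C.Deg (i + 1) c → C.Deg i (C.down π' (C.up b' c))) ∧
      (∀ a : C.A X, C.down π' (C.up b' (C.down b (C.up π a))) = a) ∧
      (∀ i : ℕ, C.down π' (C.up b' (h' ^ (i + 1))) = h ^ i)) := by
  refine ⟨fun d n i hd hn h => step hB hcone hd hn h, fun d N hd h n i hi => ?_,
    fun d n i hd hn hi => lefschetz hB hS hcyc hd hn hi, fun T => retraction hB T⟩
  exact steps hB hcone hd (by omega) N (h (n + 2 * N) (i + N) (by omega) (by omega))

end Pool.Agent.Results.MP_4be043_ag.Suspension
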